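import Pool.Agent.J6H11.NegClq.Un
import Pool.Agent.J6H11.NegClq.Avg
import Pool.Agent.J6H11.NegClq.Dist

/-!
# Hard graphs from a design
-/

set_option autoImplicit false

namespace Pool.Agent.J6H11.NegClq

open Finset Pool.Agent.H559R4 Pool.Agent.H559R8 Pool.Agent.H520R2 Pool.Agent.H520R2.NM

/-- The graph on the vertices `0, ..., n - 1` whose edges are the pairs `e` with `x e = true` has a
clique with `k` vertices. -/
def HasClique (n k : ℕ) (x : Sym2 (Fin n) → Bool) : Prop :=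
  ¬ (SimpleGraph.fromEdgeSet {e | x e = true}).CliqueFree k

theorem negG_free {W : Type} {κ : ℕ} (c : W → Fin κ) : (negG c).CliqueFree (κ + 1) := by
  have h : (negG c).Colorable κ := ⟨SimpleGraph.Coloring.mk c (fun {u v} h => h)⟩
  exact h.cliqueFree (Nat.lt_succ_self κ)

theorem bot_free {W : Type} {κ : ℕ} (hκ : 1 ≤ κ) :
    (SimpleGraph.fromEdgeSet (∅ : Set (Sym2 W))).CliqueFree (κ + 1) := by
  rw [SimpleGraph.fromEdgeSet_empty]
  exact SimpleGraph.cliqueFree_bot (by omega)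

open Classical in
/-- Hard graphs from a design. -/
theorem gap_dist {V : Type} {k b P κ n c S J : ℕ} (hκ : 2 ≤ κ) (hc : 1 ≤ c)
    (hP : 0 < P) (hb : 1 ≤ b) (hJ1 : 1 ≤ J) (hJ : κ < 2 ^ J)
    (D : Des V k (2 ^ b) P κ) (φ : V → Fin n) (hφ : Function.Injective φ) (U : Finset (Fin n))
    (hU : ∀ v, φ v ∉ U)
    (hq : 8 * c * (64 * ((κ + 1) * b * J * κ)) ≤ 2 ^ b)
    (hS : 4 * c * (S * ((κ + 1) * (64 * ((κ + 1) * b * J * κ)) ^ κ) ^ 2) ≤ 2 ^ (b * (κ + 1))) :
    ∃ (Λ : Type) (_ : Fintype Λ) (_ : Nonempty Λ) (x : Λ → Sym2 (Fin n) → Bool) (lab : Λ → Bool),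
      (∀ l, lab l = true → HasClique n (k + U.card) (x l)) ∧
      (∀ l, lab l = false → ¬ HasClique n (κ + 1 + U.card) (x l)) ∧
      ∀ (N : ℕ) (C : Circuit (Sym2 (Fin n)) N) (out : Wire (Sym2 (Fin n)) N),
        C.size + C.fanins.sum ≤ S → c * (C.fanins.map (· + 1)).prod ≤ P →
        2 * c * (univ.filter (fun l => out.eval (x l) (C.vals (x l)) = lab l)).card <
          (c + 2) * Fintype.card Λ := by
  have : Nonempty (Fin κ) := ⟨⟨0, by omega⟩⟩
  have : Nonempty (Fin (2 ^ b)) := ⟨⟨0, by positivity⟩⟩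
  let W := Fin k × Fin (2 ^ b)
  let E' : (Fin P → Set (Sym2 W)) → Sym2 (Fin n) → Bool := fun y =>
    enc D φ U (fun s => SimpleGraph.fromEdgeSet (y s))
  obtain ⟨Λ, hΛ1, hΛ2, Y, lab, h1, h2, h3⟩ := hard_distP (ι := Sym2 (Fin n)) (α := Sym2 W)
    (Pt := Fin k → Fin (2 ^ b)) (Ng := W → Fin κ) P hP
    (fun π => (posG (fun x : W => x) π).edgeSet) (fun ω => (negG ω).edgeSet) c S E'
    (fun y y' h => enc_mono D φ U (fun s => SimpleGraph.fromEdgeSet_mono (h s)))
    (by
      intro z J' g hg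
      have hg' := base_conv (enc D φ U) (enc_base D φ U hφ) z J' g S hg
      have key := adv_avgK (k := k) (κ := κ) (q := 2 ^ b) (B := (κ + 1) * b) (J := J)
        (r := 64 * ((κ + 1) * b * J * κ)) (s := S) (c := c) hκ hc
        (Nat.mul_pos (by omega) (by omega)) hJ1 le_rfl hJ hq
        (by
          rw [← pow_mul]
          exact hS)
        (by
          have h4 : 2 ^ (b * (κ + 1)) ≤ 4 ^ ((κ + 1) * b) := by
            rw [mul_comm b]
            exact Nat.pow_le_pow_left (by norm_num) _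
          refine le_trans ?_ (hS.trans h4)
          apply Nat.mul_le_mul_right
          omega)
        (g ∘ fun G : SimpleGraph W => G.edgeSet) hg'
      exact key)
  refine ⟨Λ, hΛ1, hΛ2, fun l => E' (Y l), lab, ?_, ?_, h3⟩
  · intro l hl
    obtain ⟨j, π, hj⟩ := h1 l hl
    unfold HasClique
    simp only [E']
    rw [enc_graph]
    apply un_pos D φ U hφ hU _ j
    simp only [hj, SimpleGraph.fromEdgeSet_edgeSet]
    exact tcl_posG π
  · intro l hl
    unfold HasClique
    simp only [E']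
    rw [enc_graph, not_not]
    apply un_neg D φ U hφ (by omega)
    intro p
    rcases h2 l hl p with h | ⟨ω, h⟩
    · rw [h]
      exact bot_free (by omega)
    · rw [h, SimpleGraph.fromEdgeSet_edgeSet]
      exact negG_free ω

end Pool.Agent.J6H11.NegClq
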