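import Mathlib

/-!
# Many blocks on few points, such that large cliques of the union lie in one block

The points of part `i` are triples of a polynomial `V` of degree less than `R` over a finite field,
an element of the field, and a number less than `q`. The blocks are the pairs `(A, B)` of such
polynomials: they contain the points `(A + x i * B, B (x i), c)` of part `i`.
-/

set_option autoImplicit false

namespace Pool.Agent.J6H11.NegClq

open Finset

/-- `P` blocks, each with `k` parts of `q` points, on a coloured ground set, such that every set of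
more than `κ` points of different colours, any two of which are in a common block, has only one
block for all its pairs. -/
structure Des (V : Type) (k q P κ : ℕ) where
  /-- The points of the blocks. -/
  pt : Fin P → Fin k × Fin q → V
  /-- The colour of a point. -/
  col : V → Fin k
  inj : ∀ p, Function.Injective (pt p)
  hcol : ∀ p a, col (pt p a) = a.1
  clq : ∀ T : Finset V, κ < T.card →
    (∀ u ∈ T, ∀ v ∈ T, u ≠ v → col u ≠ col v ∧ ∃ p a b, pt p a = u ∧ pt p b = v) →
    ∃ p, ∀ u ∈ T, ∀ v ∈ T, u ≠ v → ∀ p' a b, pt p' a = u → pt p' b = v → p' = p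

section field

variable {F : Type} [Field F] {R : ℕ}

/-- The value of the polynomial with the coefficients `B`. -/
def ev (B : Fin R → F) (z : F) : F := ∑ t, B t * z ^ (t : ℕ)

theorem ev_lin (A B : Fin R → F) (x z : F) :
    ev (fun t => A t + x * B t) z = ev A z + x * ev B z := by
  unfold ev
  rw [mul_sum, ← sum_add_distrib]
  exact sum_congr rfl fun t _ => by ring

theorem ev_sub (A B : Fin R → F) (z : F) : ev (A - B) z = ev A z - ev B z := by
  unfold ev
  rw [← sum_sub_distrib]
  exact sum_congr rfl fun t _ => by simp only [Pi.sub_apply]; ring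

theorem ev_inj {α : Type} {T : Finset α} (y : α → F) (hy : Set.InjOn y (T : Set α))
    (hT : R ≤ T.card) {A B : Fin R → F} (h : ∀ u ∈ T, ev A (y u) = ev B (y u)) : A = B := by
  obtain ⟨T', hT', hc⟩ := exists_subset_card_eq hT
  have e : T' ≃ Fin R := T'.equivFinOfCardEq hc
  have key : A - B = 0 := by
    apply Matrix.eq_zero_of_forall_index_sum_mul_pow_eq_zero (f := fun j => y (e.symm j).1)
    · intro i j hij
      have := hy (hT' (e.symm i).2) (hT' (e.symm j).2) hij
      exact e.symm.injective (Subtype.ext this)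
    · intro j
      have := h _ (hT' (e.symm j).2)
      have h2 := ev_sub A B (y (e.symm j).1)
      rw [this, sub_self] at h2
      exact h2
  exact sub_eq_zero.1 key

/-- The block `(A, B)` contains the points `(i, u, c, _)` and `(j, v, d, _)`. -/
theorem block_unique {α : Type} {T : Finset α} (y : α → F) (hy : Set.InjOn y (T : Set α))
    (hT : R ≤ T.card) (hT2 : 2 ≤ T.card) (W : α → Fin R → F) (lam : α → F)
    (h : ∀ u ∈ T, ∀ v ∈ T, u ≠ v → ∃ A B : Fin R → F, W u = (fun t => A t + y u * B t) ∧
      W v = (fun t => A t + y v * B t) ∧ lam u = ev B (y u) ∧ lam v = ev B (y v)) :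
    ∃ A₀ B₀ : Fin R → F, ∀ u ∈ T, ∀ v ∈ T, u ≠ v → ∀ A B : Fin R → F,
      W u = (fun t => A t + y u * B t) → W v = (fun t => A t + y v * B t) →
      lam u = ev B (y u) → lam v = ev B (y v) → A = A₀ ∧ B = B₀ := by
  -- the values at the points of `T`
  have h1 : ∀ u ∈ T, ∀ v ∈ T, ev (W v) (y u) = ev (W u) (y u) - (y u - y v) * lam u := by
    intro u hu v hv
    by_cases huv : u = v
    · subst huv
      ring
    · obtain ⟨A, B, hA, hB, hC, hD⟩ := h u hu v hv huv
      rw [hA, hB, ev_lin, ev_lin, hC]
      ring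
  -- the second polynomial has the values `lam`
  have h2 : ∀ u ∈ T, ∀ v ∈ T, u ≠ v → ∀ A B : Fin R → F,
      W u = (fun t => A t + y u * B t) → W v = (fun t => A t + y v * B t) →
      ∀ w ∈ T, ev B (y w) = lam w := by
    intro u hu v hv huv A B hA hB w hw
    have h3 := h1 w hw u hu
    have h4 := h1 w hw v hv
    rw [hA, ev_lin] at h3
    rw [hB, ev_lin] at h4
    have h5 : (y u - y v) * ev B (y w) = (y u - y v) * lam w := by
      linear_combination h3 - h4
    have h6 : y u - y v ≠ 0 := by
      rw [sub_ne_zero]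
      intro h7
      exact huv (hy hu hv h7)
    exact mul_left_cancel₀ h6 h5
  obtain ⟨u₀, hu₀, v₀, hv₀, huv₀⟩ := Finset.one_lt_card.1 (show 1 < T.card by omega)
  obtain ⟨A₀, B₀, hA₀, hB₀, -, -⟩ := h u₀ hu₀ v₀ hv₀ huv₀
  have hB : ∀ u ∈ T, ∀ v ∈ T, u ≠ v → ∀ A B : Fin R → F,
      W u = (fun t => A t + y u * B t) → W v = (fun t => A t + y v * B t) → B = B₀ := by
    intro u hu v hv huv A B hA hB
    apply ev_inj y hy hT
    intro w hw
    rw [h2 u hu v hv huv A B hA hB w hw, h2 u₀ hu₀ v₀ hv₀ huv₀ A₀ B₀ hA₀ hB₀ w hw]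
  refine ⟨A₀, B₀, ?_⟩
  intro u hu v hv huv A B hA hB' _ _
  have e1 := hB u hu v hv huv A B hA hB'
  refine ⟨?_, e1⟩
  subst e1
  -- compare with `u₀`
  by_cases hu' : u = u₀
  · subst hu'
    funext t
    have := hA.symm.trans hA₀
    have := congrFun this t
    simpa using this
  · obtain ⟨A₁, B₁, hA₁, hB₁, -, -⟩ := h u hu u₀ hu₀ hu'
    have e2 := hB u hu u₀ hu₀ hu' A₁ B₁ hA₁ hB₁
    subst e2
    funext t
    have h3 := congrFun (hA.symm.trans hA₁) t
    have h4 := congrFun (hB₁.symm.trans hA₀) t
    simp only [add_left_inj] at h3 h4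
    rw [h3, h4]

variable [Fintype F]

/-- **The design.** -/
theorem exists_des {k q κ : ℕ} (hk : k ≤ Fintype.card F) (hR : R ≤ κ + 1) (hκ : 1 ≤ κ) :
    Nonempty (Des (Fin k × (Fin R → F) × F × Fin q) k q (Fintype.card F ^ (2 * R)) κ) := by
  classical
  obtain ⟨x⟩ : Nonempty (Fin k ↪ F) :=
    Function.Embedding.nonempty_of_card_le (by simpa using hk)
  have e : Fin (Fintype.card F ^ (2 * R)) ≃ (Fin R → F) × (Fin R → F) := by
    apply Fintype.equivOfCardEq
    rw [Fintype.card_fin, Fintype.card_prod, Fintype.card_fun, Fintype.card_fin, two_mul, pow_add]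
  refine ⟨{
    pt := fun p a => (a.1, (fun t => (e p).1 t + x a.1 * (e p).2 t), ev (e p).2 (x a.1), a.2)
    col := fun v => v.1
    inj := ?_
    hcol := fun _ _ => rfl
    clq := ?_ }⟩
  · rintro p ⟨i, c⟩ ⟨j, d⟩ h
    simp only [Prod.mk.injEq] at h
    exact Prod.ext h.1 h.2.2.2
  · intro T hT h
    have hy : Set.InjOn (fun v : Fin k × (Fin R → F) × F × Fin q => x v.1)
        (T : Set (Fin k × (Fin R → F) × F × Fin q)) := by
      intro u hu v hv huv
      by_contra hne
      exact (h u hu v hv hne).1 (x.injective huv)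
    obtain ⟨A₀, B₀, key⟩ := block_unique (fun v : Fin k × (Fin R → F) × F × Fin q => x v.1) hy
      (by omega) (by omega) (fun v => v.2.1) (fun v => v.2.2.1) (by
        intro u hu v hv huv
        obtain ⟨p, a, b, rfl, rfl⟩ := (h u hu v hv huv).2
        exact ⟨(e p).1, (e p).2, rfl, rfl, rfl, rfl⟩)
    refine ⟨e.symm (A₀, B₀), ?_⟩
    intro u hu v hv huv p' a b ha hb
    subst ha hb
    obtain ⟨h1, h2⟩ := key _ hu _ hv huv (e p').1 (e p').2 rfl rfl rfl rfl
    rw [Equiv.eq_symm_apply]
    exact Prod.ext h1 h2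

end field

end Pool.Agent.J6H11.NegClq
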