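import Pool.Agent.J6H11.NegClq.Main

/-!
# Few non-monotone gates for the clique problem: randomised circuits and polynomial size
-/

set_option autoImplicit false

namespace Pool.Agent.J6H11.NegClq

open Finset Filter Pool.Agent.H559R4 Pool.Agent.H559R8 Pool.Agent.H520R2 Pool.Agent.H520R2.NM

open Classical in
/-- **The trade-off for randomised circuits.** -/
theorem clique_rand (n k g s : ℕ) (hs : 2 ≤ s) (hk : s ≤ k) (hn : n ≤ 2 ^ s) (Ω : Type)
    [Fintype Ω] (w : Ω → ℝ) (hw : ∀ r, 0 ≤ w r) (hw1 : ∑ r, w r = 1) (N : Ω → ℕ)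
    (C : ∀ r, Circuit (Sym2 (Fin n)) (N r)) (out : ∀ r, Wire (Sym2 (Fin n)) (N r))
    (h1 : ∀ r, (s + g) ^ 30 * ((C r).fanins.map (· + 1)).prod ≤ (n - k) ^ 2)
    (h2 : ∀ r, (C r).size + (C r).fanins.sum < 2 ^ s) :
    ∃ x : Sym2 (Fin n) → Bool, (HasClique n (k + g) x ∨ ¬ HasClique n k x) ∧
      ∑ r ∈ univ.filter (fun r => ((out r).eval x ((C r).vals x) = true ↔
        HasClique n (k + g) x)), w r < 1 / 2 + 1 / s := by
  obtain ⟨Λ, _, _, x, hx, H⟩ := clique_avg n k g s hs hk hn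
  obtain ⟨ok, hokdef⟩ : ∃ ok : Ω → Λ → Prop, ∀ r l, ok r l ↔
      ((out r).eval (x l) ((C r).vals (x l)) = true ↔ HasClique n (k + g) (x l)) :=
    ⟨_, fun _ _ => Iff.rfl⟩
  have hok : ∀ r, ((univ.filter (fun l => ok r l)).card : ℝ) <
      (1 / 2 + 1 / s) * Fintype.card Λ := by
    intro r
    refine lt_of_eq_of_lt ?_ (H (N r) (C r) (out r) (h1 r) (h2 r))
    have : univ.filter (fun l => ok r l) = univ.filter (fun l =>
        ((out r).eval (x l) ((C r).vals (x l)) = true ↔ HasClique n (k + g) (x l))) := by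
      ext l
      rw [mem_filter, mem_filter, hokdef]
    rw [this]
  obtain ⟨l, hl⟩ := rand_of_dist' (1 / 2 + 1 / s : ℝ) ok w hw hw1 hok
  refine ⟨x l, hx l, lt_of_eq_of_lt ?_ hl⟩
  have : univ.filter (fun r => ((out r).eval (x l) ((C r).vals (x l)) = true ↔
      HasClique n (k + g) (x l))) = univ.filter (fun r => ok r l) := by
    ext r
    rw [mem_filter, mem_filter, hokdef]
  rw [this]

/-- The trade-off for circuits that are always right. -/
theorem clique_det {n k g s : ℕ} (hs : 2 ≤ s) (hk : s ≤ k) (hn : n ≤ 2 ^ s) {N : ℕ}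
    (C : Circuit (Sym2 (Fin n)) N) (out : Wire (Sym2 (Fin n)) N)
    (hC : ∀ x, (HasClique n (k + g) x → out.eval x (C.vals x) = true) ∧
      (¬ HasClique n k x → out.eval x (C.vals x) = false))
    (h1 : (s + g) ^ 30 * (C.fanins.map (· + 1)).prod ≤ (n - k) ^ 2) :
    2 ^ s ≤ C.size + C.fanins.sum := by
  classical
  by_contra hcon
  push Not at hcon
  obtain ⟨Λ, _, _, x, hx, H⟩ := clique_avg n k g s hs hk hn
  have key := H N C out h1 hcon
  have hall : univ.filter (fun l => (out.eval (x l) (C.vals (x l)) = true ↔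
      HasClique n (k + g) (x l))) = univ := by
    rw [filter_eq_self]
    intro l _
    rcases hx l with h | h
    · simp [h, (hC (x l)).1 h]
    · have h' : ¬ HasClique n (k + g) (x l) := fun h2 => h (h2.anti (Nat.le_add_right _ _))
      simp [h', (hC (x l)).2 h]
  rw [hall, card_univ] at key
  have hΛ : (0 : ℝ) < Fintype.card Λ := by exact_mod_cast Fintype.card_pos
  have hs0 : (2 : ℝ) ≤ s := by exact_mod_cast hs
  have h3 : (1 / 2 + 1 / (s : ℝ)) ≤ 1 := by
    have : 1 / (s : ℝ) ≤ 1 / 2 := one_div_le_one_div_of_le (by norm_num) hs0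
    linarith
  have h4 : (1 / 2 + 1 / (s : ℝ)) * Fintype.card Λ ≤ 1 * Fintype.card Λ :=
    mul_le_mul_of_nonneg_right h3 hΛ.le
  linarith

/-- `log₂ N - O(log log N)` NOT gates. -/
theorem clique_log (A : ℝ) (hA : 1 ≤ A) : ∀ᶠ n : ℕ in atTop, ∀ k : ℕ,
    Real.logb 2 n ^ A ≤ k → 2 * k ≤ n →
    ∀ (N : ℕ) (C : Circuit (Sym2 (Fin n)) N) (out : Wire (Sym2 (Fin n)) N),
      (∀ x, out.eval x (C.vals x) = true ↔ HasClique n k x) →
      Real.logb 2 ((C.fanins.map (· + 1)).prod : ℕ) ≤ Real.logb 2 (n.choose 2) -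
        31 * A * Real.logb 2 (Real.logb 2 (n.choose 2)) →
      (2 : ℝ) ^ (Real.logb 2 n ^ A) ≤ (C.size + C.fanins.sum : ℕ) := by
  have hlog : Tendsto (fun n : ℕ => Real.logb 2 (n : ℝ)) atTop atTop :=
    (Real.tendsto_logb_atTop (by norm_num)).comp tendsto_natCast_atTop_atTop
  filter_upwards [hlog.eventually_ge_atTop (2 ^ 31), eventually_ge_atTop 4] with n hL hn4
  intro k hk hkn N C out hC hprod
  set L := Real.logb 2 (n : ℝ) with hLdef
  have hn0 : (0 : ℝ) < n := by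
    have : 0 < n := by omega
    exact_mod_cast this
  have hL1 : 1 ≤ L := le_trans (by norm_num) hL
  have hL0 : 0 < L := by linarith
  have h2L : (2 : ℝ) ^ L = n := Real.rpow_logb (by norm_num) (by norm_num) hn0
  -- the number of input bits
  have hch : ((n.choose 2 : ℕ) : ℝ) = n * (n - 1) / 2 := Nat.cast_choose_two ℝ n
  have hn4' : (4 : ℝ) ≤ n := by exact_mod_cast hn4
  have hch1 : (n : ℝ) ≤ (n.choose 2 : ℕ) := by
    rw [hch]
    nlinarith
  have hch2 : ((n.choose 2 : ℕ) : ℝ) ≤ n ^ 2 / 2 := by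
    rw [hch]
    nlinarith
  have hch0 : (0 : ℝ) < (n.choose 2 : ℕ) := by linarith
  set M := Real.logb 2 ((n.choose 2 : ℕ) : ℝ) with hM
  have hLM : L ≤ M := Real.logb_le_logb_of_le (by norm_num) hn0 hch1
  have hM0 : 0 < M := by linarith
  set p : ℕ := (C.fanins.map (· + 1)).prod with hp
  have hp1 : 1 ≤ p := one_le_prod _
  have hp0 : (0 : ℝ) < p := by exact_mod_cast hp1
  -- the product is small
  have hple : (p : ℝ) * L ^ (31 * A) ≤ n ^ 2 / 2 := by
    have h1 : (p : ℝ) ≤ (n.choose 2 : ℕ) / M ^ (31 * A) := by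
      have e1 : (2 : ℝ) ^ Real.logb 2 (p : ℝ) = p :=
        Real.rpow_logb (by norm_num) (by norm_num) hp0
      have e2 : (2 : ℝ) ^ M = (n.choose 2 : ℕ) :=
        Real.rpow_logb (by norm_num) (by norm_num) hch0
      have e3 : (2 : ℝ) ^ Real.logb 2 M = M :=
        Real.rpow_logb (by norm_num) (by norm_num) hM0
      calc (p : ℝ) = (2 : ℝ) ^ Real.logb 2 (p : ℝ) := e1.symm
        _ ≤ (2 : ℝ) ^ (M - 31 * A * Real.logb 2 M) :=
            Real.rpow_le_rpow_of_exponent_le (by norm_num) hprod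
        _ = (2 : ℝ) ^ M / (2 : ℝ) ^ (Real.logb 2 M * (31 * A)) := by
            rw [Real.rpow_sub (by norm_num), mul_comm (31 * A)]
        _ = _ := by rw [Real.rpow_mul (by norm_num), e2, e3]
    rw [le_div_iff₀ (by positivity)] at h1
    calc (p : ℝ) * L ^ (31 * A) ≤ p * M ^ (31 * A) := by gcongr
      _ ≤ (n.choose 2 : ℕ) := h1
      _ ≤ _ := hch2
  -- the parameter `s`
  set s := ⌈L ^ A⌉₊ with hs
  have hLA : L ≤ L ^ A := by
    calc L = L ^ (1 : ℝ) := (Real.rpow_one L).symm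
      _ ≤ L ^ A := Real.rpow_le_rpow_of_exponent_le hL1 hA
  have hs1 : L ^ A ≤ s := Nat.le_ceil _
  have hs2 : (s : ℝ) ≤ 2 * L ^ A := by
    have := (Nat.ceil_lt_add_one (a := L ^ A) (by positivity)).le
    linarith
  have hsk : s ≤ k := Nat.ceil_le.2 hk
  have hs3 : 2 ≤ s := by
    have : (2 : ℝ) ≤ s := by
      have : (2 : ℝ) ≤ L := le_trans (by norm_num) hL
      linarith
    exact_mod_cast this
  have hns : n ≤ 2 ^ s := by
    have : (n : ℝ) ≤ 2 ^ s := by
      rw [← Real.rpow_natCast, ← h2L]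
      exact Real.rpow_le_rpow_of_exponent_le (by norm_num) (by linarith)
    exact_mod_cast this
  have hnk : (n : ℝ) / 2 ≤ ((n - k : ℕ) : ℝ) := by
    rw [Nat.cast_sub (by omega)]
    have : (2 : ℝ) * k ≤ n := by exact_mod_cast hkn
    linarith
  have hmain : (s + 0) ^ 30 * p ≤ (n - k) ^ 2 := by
    have h1 : ((s : ℝ)) ^ 30 * p ≤ ((n - k : ℕ) : ℝ) ^ 2 := by
      have h2 : (s : ℝ) ^ 30 * p * L ≤ ((n - k : ℕ) : ℝ) ^ 2 * L := by
        calc (s : ℝ) ^ 30 * p * L ≤ (2 * L ^ A) ^ 30 * p * L := by gcongr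
          _ = 2 ^ 30 * (p * (L ^ (A * (30 : ℕ)) * L)) := by
              rw [mul_pow, Real.rpow_mul_natCast hL0.le]
              ring
          _ = 2 ^ 30 * (p * (L ^ (A * (30 : ℕ) + 1))) := by
              rw [Real.rpow_add hL0, Real.rpow_one]
          _ ≤ 2 ^ 30 * (p * L ^ (31 * A)) := by
              gcongr
              push_cast
              linarith
          _ ≤ 2 ^ 30 * (n ^ 2 / 2) := by gcongr
          _ = (n / 2 : ℝ) ^ 2 * 2 ^ 31 := by ring
          _ ≤ ((n - k : ℕ) : ℝ) ^ 2 * L := by gcongr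
      exact le_of_mul_le_mul_right h2 hL0
    rw [Nat.add_zero]
    exact_mod_cast h1
  have key := clique_det (g := 0) hs3 hsk hns C out (fun x => by
    rw [Nat.add_zero]
    refine ⟨(hC x).2, fun h => ?_⟩
    rw [← Bool.not_eq_true, hC x]
    exact h) hmain
  calc (2 : ℝ) ^ (L ^ A) ≤ (2 : ℝ) ^ ((s : ℕ) : ℝ) :=
        Real.rpow_le_rpow_of_exponent_le (by norm_num) hs1
    _ = ((2 ^ s : ℕ) : ℝ) := by
        rw [Real.rpow_natCast]
        push_cast
        rfl
    _ ≤ _ := by exact_mod_cast key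

end Pool.Agent.J6H11.NegClq
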