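import Mathlib

/-!
# The choice of the parameters
-/

set_option autoImplicit false

namespace Pool.Agent.J6H11.NegClq

theorem num_a {a : ℕ} (ha : 7 ≤ a) : (576 * a ^ 2) ^ 2 * 8 ≤ 2 ^ (5 * a) := by
  induction a, ha using Nat.le_induction with
  | base => norm_num
  | succ a ha ih =>
    have h1 : (a + 1) ^ 4 ≤ 32 * a ^ 4 := by
      have h2 : a + 1 ≤ 2 * a := by omega
      calc (a + 1) ^ 4 ≤ (2 * a) ^ 4 := Nat.pow_le_pow_left h2 4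
        _ = 16 * a ^ 4 := by ring
        _ ≤ 32 * a ^ 4 := by omega
    calc (576 * (a + 1) ^ 2) ^ 2 * 8 = 576 ^ 2 * 8 * (a + 1) ^ 4 := by ring
      _ ≤ 576 ^ 2 * 8 * (32 * a ^ 4) := Nat.mul_le_mul_left _ h1
      _ = 32 * ((576 * a ^ 2) ^ 2 * 8) := by ring
      _ ≤ 32 * 2 ^ (5 * a) := Nat.mul_le_mul_left _ ih
      _ = 2 ^ (5 * (a + 1)) := by ring

section

variable {a κ : ℕ} (ha : 7 ≤ a) (hs : κ + 1 ≤ 2 ^ a)

include ha hs

theorem num_r : 64 * ((κ + 1) * (9 * a) * a * κ) ≤ 576 * a ^ 2 * 4 ^ a := by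
  have h4 : (4 : ℕ) ^ a = 2 ^ a * 2 ^ a := by
    rw [← mul_pow]
    norm_num
  calc 64 * ((κ + 1) * (9 * a) * a * κ) = 576 * a ^ 2 * ((κ + 1) * κ) := by ring
    _ ≤ 576 * a ^ 2 * (2 ^ a * 2 ^ a) := by
        apply Nat.mul_le_mul_left
        exact Nat.mul_le_mul hs (by omega)
    _ = _ := by rw [h4]

theorem num_q : 8 * (κ + 1) * (64 * ((κ + 1) * (9 * a) * a * κ)) ≤ 2 ^ (9 * a) := by
  have h1 := num_r ha hs
  have h2 := num_a ha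
  have h3 : 1 ≤ 576 * a ^ 2 := Nat.mul_pos (by norm_num) (by positivity)
  have h4 : (4 : ℕ) ^ a = 2 ^ a * 2 ^ a := by
    rw [← mul_pow]
    norm_num
  calc 8 * (κ + 1) * (64 * ((κ + 1) * (9 * a) * a * κ)) ≤ 8 * 2 ^ a * (576 * a ^ 2 * 4 ^ a) :=
        Nat.mul_le_mul (Nat.mul_le_mul_left _ hs) h1
    _ = (576 * a ^ 2) * 8 * (2 ^ a * 4 ^ a) := by ring
    _ ≤ ((576 * a ^ 2) ^ 2 * 8) * (2 ^ a * 4 ^ a) := by
        apply Nat.mul_le_mul_right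
        apply Nat.mul_le_mul_right
        exact Nat.le_self_pow (by norm_num) _
    _ ≤ 2 ^ (5 * a) * (2 ^ a * 4 ^ a) := Nat.mul_le_mul_right _ h2
    _ = 2 ^ (8 * a) := by
        rw [h4, ← pow_add, ← pow_add, ← pow_add]
        congr 1
        ring
    _ ≤ 2 ^ (9 * a) := Nat.pow_le_pow_right (by norm_num) (by omega)

theorem num_S {S : ℕ} (hS : S ≤ 2 ^ (κ + 1)) :
    4 * (κ + 1) * (S * ((κ + 1) * (64 * ((κ + 1) * (9 * a) * a * κ)) ^ κ) ^ 2) ≤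
      2 ^ (9 * a * (κ + 1)) := by
  have h1 := num_r ha hs
  have h2 := num_a ha
  generalize 64 * ((κ + 1) * (9 * a) * a * κ) = r at h1 ⊢
  have h4 : (4 : ℕ) ^ a * 4 ^ a = 2 ^ (4 * a) := by
    rw [← pow_add, show (4 : ℕ) = 2 ^ 2 by norm_num, ← pow_mul]
    congr 1
    ring
  have h3 : 8 * r ^ 2 ≤ 2 ^ (9 * a) := by
    calc 8 * r ^ 2 ≤ 8 * (576 * a ^ 2 * 4 ^ a) ^ 2 :=
          Nat.mul_le_mul_left _ (Nat.pow_le_pow_left h1 2)
      _ = ((576 * a ^ 2) ^ 2 * 8) * (4 ^ a * 4 ^ a) := by ring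
      _ ≤ 2 ^ (5 * a) * 2 ^ (4 * a) := by rw [h4]; exact Nat.mul_le_mul_right _ h2
      _ = 2 ^ (9 * a) := by
          rw [← pow_add]
          congr 1
          ring
  have h5 : 8 ^ κ * (4 * (κ + 1) * (S * ((κ + 1) * r ^ κ) ^ 2)) ≤
      8 ^ κ * 2 ^ (9 * a * (κ + 1)) := by
    have e : (r ^ κ) ^ 2 = (r ^ 2) ^ κ := by rw [← pow_mul, ← pow_mul, mul_comm]
    calc 8 ^ κ * (4 * (κ + 1) * (S * ((κ + 1) * r ^ κ) ^ 2))
        = 8 ^ κ * (4 * (κ + 1) * (S * ((κ + 1) ^ 2 * (r ^ κ) ^ 2))) := by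
          rw [mul_pow (κ + 1) (r ^ κ) 2]
      _ = 4 * (κ + 1) ^ 3 * S * (8 * r ^ 2) ^ κ := by
          rw [e, mul_pow 8 (r ^ 2) κ]
          ring
      _ ≤ 4 * (2 ^ a) ^ 3 * 2 ^ (κ + 1) * (2 ^ (9 * a)) ^ κ := by gcongr
      _ = 2 ^ κ * (2 ^ (3 * a + 3) * (2 ^ (9 * a)) ^ κ) := by ring
      _ ≤ 8 ^ κ * (2 ^ (9 * a) * (2 ^ (9 * a)) ^ κ) := by
          apply Nat.mul_le_mul
          · exact Nat.pow_le_pow_left (by norm_num) κ
          · apply Nat.mul_le_mul_right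
            exact Nat.pow_le_pow_right (by norm_num) (by omega)
      _ = 8 ^ κ * 2 ^ (9 * a * (κ + 1)) := by ring
  exact Nat.le_of_mul_le_mul_left h5 (by positivity)

end

theorem small_s : ∀ s < 100, 2 ≤ s → 4 ^ s < s ^ 30 := by decide

end Pool.Agent.J6H11.NegClq
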