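import Pool.Agent.J6H11.NegClq.Core
import Pool.Agent.J6H11.NegClq.Num

/-!
# Few non-monotone gates for the clique problem: the trade-off
-/

set_option autoImplicit false

namespace Pool.Agent.J6H11.NegClq

open Finset Pool.Agent.H559R4 Pool.Agent.H559R8 Pool.Agent.H520R2 Pool.Agent.H520R2.NM

theorem HasClique.anti {n k k' : ℕ} {x : Sym2 (Fin n) → Bool} (h : k ≤ k')
    (hx : HasClique n k' x) : HasClique n k x := fun hf => hx (hf.mono h)

theorem not_hasClique_false {n k : ℕ} (hk : 2 ≤ k) : ¬ HasClique n k (fun _ => false) := by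
  unfold HasClique
  rw [not_not]
  have : ({e | (fun _ : Sym2 (Fin n) => false) e = true} : Set (Sym2 (Fin n))) = ∅ := by
    ext e
    simp
  rw [this, SimpleGraph.fromEdgeSet_empty]
  exact SimpleGraph.cliqueFree_bot hk

theorem one_le_prod (l : List ℕ) : 1 ≤ (l.map (· + 1)).prod := by
  induction l with
  | nil => simp
  | cons a l ih =>
    rw [List.map_cons, List.prod_cons]
    exact Nat.mul_pos (Nat.succ_pos a) ih

/-- the parameters of the design -/
theorem params {n k g s : ℕ} (hs : 2 ≤ s) (hk : s ≤ k) (hn : n ≤ 2 ^ s)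
    (hbig : (s + g) ^ 30 ≤ (n - k) ^ 2) :
    ∃ a R : ℕ, 7 ≤ a ∧ s + g ≤ 2 ^ a ∧ R ≤ s ∧ (2 ^ a) ^ (R + 11) ≤ n - k + s ∧
      ∀ p : ℕ, 1 ≤ p → (s + g) ^ 30 * p ≤ (n - k) ^ 2 → s * p ≤ (2 ^ a) ^ (2 * R) := by
  have hs100 : 100 ≤ s := by
    by_contra hcon
    push Not at hcon
    have h1 := small_s s hcon hs
    have h2 : s ^ 30 ≤ 4 ^ s := by
      calc s ^ 30 ≤ (s + g) ^ 30 := Nat.pow_le_pow_left (by omega) _
        _ ≤ (n - k) ^ 2 := hbig
        _ ≤ (2 ^ s) ^ 2 := Nat.pow_le_pow_left (by omega) _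
        _ = 4 ^ s := by
          rw [← pow_mul, mul_comm, pow_mul]
          norm_num
    omega
  set G := s + g with hG
  have hG100 : 100 ≤ G := by omega
  obtain ⟨a, ha⟩ : ∃ a, a = Nat.clog 2 G := ⟨_, rfl⟩
  have ha1 : G ≤ 2 ^ a := by
    rw [ha]
    exact Nat.le_pow_clog (by norm_num) G
  have ha2 : 2 ^ a < 2 * G := by
    have h1 : 2 ^ (Nat.clog 2 G - 1) < G := Nat.pow_pred_clog_lt_self (by norm_num) (by omega)
    have h2 : 1 ≤ a := by
      by_contra h3
      have : a = 0 := by omega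
      rw [this] at ha1
      norm_num at ha1
      omega
    rw [← ha] at h1
    obtain ⟨a', rfl⟩ : ∃ a', a = a' + 1 := ⟨a - 1, by omega⟩
    rw [Nat.add_sub_cancel] at h1
    rw [pow_succ]
    omega
  have ha7 : 7 ≤ a := by
    by_contra h3
    have : 2 ^ a ≤ 2 ^ 6 := Nat.pow_le_pow_right (by norm_num) (by omega)
    omega
  -- the number of vertices
  have hbig' : G ^ 15 ≤ n - k := by
    have h1 : (G ^ 15) ^ 2 ≤ (n - k) ^ 2 := by
      rw [← pow_mul]
      exact hbig
    exact (Nat.pow_le_pow_iff_left (by norm_num)).1 h1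
  set n₁ := n - k + s with hn₁
  have hB : (2 ^ a) ^ 11 ≤ n₁ := by
    calc (2 ^ a) ^ 11 ≤ (2 * G) ^ 11 := Nat.pow_le_pow_left ha2.le _
      _ = 2048 * G ^ 11 := by ring
      _ ≤ (G * G) * G ^ 11 := Nat.mul_le_mul_right _ (by nlinarith)
      _ = G ^ 13 := by ring
      _ ≤ G ^ 15 := Nat.pow_le_pow_right (by omega) (by norm_num)
      _ ≤ n₁ := by omega
  have hB1 : 1 < 2 ^ a := Nat.one_lt_two_pow (by omega)
  have hn₁0 : n₁ ≠ 0 := by omega
  obtain ⟨R, hR⟩ : ∃ R, Nat.log (2 ^ a) n₁ = R + 11 := by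
    refine ⟨Nat.log (2 ^ a) n₁ - 11, ?_⟩
    have := (Nat.le_log_iff_pow_le hB1 hn₁0).2 hB
    omega
  have hR1 : (2 ^ a) ^ (R + 11) ≤ n₁ := by
    rw [← hR]
    exact Nat.pow_log_le_self _ hn₁0
  have hR2 : n₁ < (2 ^ a) ^ (R + 12) := by
    have := Nat.lt_pow_succ_log_self hB1 n₁
    rw [hR] at this
    exact this
  refine ⟨a, R, ha7, ha1, ?_, hR1, ?_⟩
  · have h1 : 2 ^ (a * (R + 11)) ≤ 2 ^ s := by
      rw [pow_mul]
      refine hR1.trans (le_trans ?_ hn)
      have : 1 ≤ n - k := (Nat.one_le_pow _ _ (by omega)).trans hbig'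
      omega
    have h2 := (Nat.pow_le_pow_iff_right (by norm_num : 1 < 2)).1 h1
    nlinarith
  · intro p hp h
    by_contra hcon
    push Not at hcon
    -- `G ^ 30 * p ≤ (n - k) ^ 2 < (2 ^ a) ^ (2 * R) * (2 ^ a) ^ 24`
    have h1 : (n - k) ^ 2 ≤ (2 ^ a) ^ (2 * R) * (2 ^ a) ^ 24 := by
      calc (n - k) ^ 2 ≤ n₁ ^ 2 := Nat.pow_le_pow_left (by omega) _
        _ ≤ ((2 ^ a) ^ (R + 12)) ^ 2 := Nat.pow_le_pow_left hR2.le _
        _ = _ := by ring
    have h2 : G ^ 30 * p < G ^ 30 * p := by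
      calc G ^ 30 * p ≤ (2 ^ a) ^ (2 * R) * (2 ^ a) ^ 24 := h.trans h1
        _ < (s * p) * (2 ^ a) ^ 24 := Nat.mul_lt_mul_of_pos_right hcon (by positivity)
        _ ≤ (G * p) * (2 * G) ^ 24 := by gcongr; omega
        _ = 2 ^ 24 * (G ^ 25 * p) := by ring
        _ ≤ G ^ 5 * (G ^ 25 * p) := by
            apply Nat.mul_le_mul_right
            calc 2 ^ 24 ≤ 100 ^ 5 := by norm_num
              _ ≤ G ^ 5 := Nat.pow_le_pow_left hG100 _
        _ = G ^ 30 * p := by ring
    exact lt_irrefl _ h2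

open Classical in
/-- **The trade-off, on average.** -/
theorem clique_avg (n k g s : ℕ) (hs : 2 ≤ s) (hk : s ≤ k) (hn : n ≤ 2 ^ s) :
    ∃ (Λ : Type) (_ : Fintype Λ) (_ : Nonempty Λ) (x : Λ → Sym2 (Fin n) → Bool),
      (∀ l, HasClique n (k + g) (x l) ∨ ¬ HasClique n k (x l)) ∧
      ∀ (N : ℕ) (C : Circuit (Sym2 (Fin n)) N) (out : Wire (Sym2 (Fin n)) N),
        (s + g) ^ 30 * (C.fanins.map (· + 1)).prod ≤ (n - k) ^ 2 →
        C.size + C.fanins.sum < 2 ^ s →
        ((univ.filter (fun l => (out.eval (x l) (C.vals (x l)) = true ↔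
          HasClique n (k + g) (x l)))).card : ℝ) < (1 / 2 + 1 / s) * Fintype.card Λ := by
  by_cases hbig : (s + g) ^ 30 ≤ (n - k) ^ 2
  swap
  · refine ⟨Unit, inferInstance, inferInstance, fun _ _ => false,
      fun _ => Or.inr (not_hasClique_false (by omega)), ?_⟩
    intro N C out h
    exact absurd ((Nat.le_mul_of_pos_right _ (one_le_prod _)).trans h) hbig
  obtain ⟨a, R, ha, hGa, hRs, hR, hp⟩ := params hs hk hn hbig
  obtain ⟨κ, hκ⟩ : ∃ κ, s = κ + 1 := ⟨s - 1, by omega⟩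
  have hs100 : 3 ≤ s := by
    by_contra hcon
    have h2 : s = 2 := by omega
    have h3 := small_s 2 (by norm_num) le_rfl
    have h4 : 2 ^ 30 ≤ 4 ^ 2 := by
      calc 2 ^ 30 ≤ (s + g) ^ 30 := Nat.pow_le_pow_left (by omega) _
        _ ≤ (n - k) ^ 2 := hbig
        _ ≤ (2 ^ 2) ^ 2 := Nat.pow_le_pow_left (by rw [h2] at hn; omega) _
        _ = 4 ^ 2 := by norm_num
    omega
  have hnk : 1 ≤ n - k := by
    by_contra hcon
    have h0 : n - k = 0 := by omega
    rw [h0] at hbig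
    have : 0 < (s + g) ^ 30 := by positivity
    omega
  have : Fact (Nat.Prime 2) := ⟨Nat.prime_two⟩
  let F := GaloisField 2 a
  let _ : Fintype F := Fintype.ofFinite F
  have hF : Fintype.card F = 2 ^ a := by
    rw [← Nat.card_eq_fintype_card]
    exact GaloisField.card 2 a (by omega)
  obtain ⟨D⟩ := exists_des (F := F) (R := R) (k := s + g) (q := 2 ^ (9 * a)) (κ := κ)
    (by rw [hF]; exact hGa) (by omega) (by omega)
  rw [hF] at D
  have hV : Fintype.card (Fin (s + g) × (Fin R → F) × F × Fin (2 ^ (9 * a))) ≤ n - k + s := by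
    refine le_trans ?_ hR
    simp only [Fintype.card_prod, Fintype.card_fun, Fintype.card_fin, hF]
    calc (s + g) * ((2 ^ a) ^ R * (2 ^ a * 2 ^ (9 * a)))
        ≤ 2 ^ a * ((2 ^ a) ^ R * (2 ^ a * 2 ^ (9 * a))) := Nat.mul_le_mul_right _ hGa
      _ = (2 ^ a) ^ (R + 11) := by
          rw [show 2 ^ (9 * a) = (2 ^ a) ^ 9 by rw [← pow_mul, mul_comm]]
          ring
  obtain ⟨emb⟩ : Nonempty ((Fin (s + g) × (Fin R → F) × F × Fin (2 ^ (9 * a))) ⊕ Fin (k - s) ↪
      Fin n) := by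
    apply Function.Embedding.nonempty_of_card_le
    rw [Fintype.card_sum, Fintype.card_fin, Fintype.card_fin]
    omega
  let φ : Fin (s + g) × (Fin R → F) × F × Fin (2 ^ (9 * a)) → Fin n := fun v => emb (Sum.inl v)
  have hφ : Function.Injective φ := fun v w h => Sum.inl_injective (emb.injective h)
  let U : Finset (Fin n) := univ.image (fun i : Fin (k - s) => emb (Sum.inr i))
  have hU : ∀ v, φ v ∉ U := by
    intro v hv
    rw [mem_image] at hv
    obtain ⟨i, -, hi⟩ := hv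
    have := emb.injective hi
    simp at this
  have hUc : U.card = k - s := by
    rw [card_image_of_injective _ (fun i j h => Sum.inr_injective (emb.injective h)), card_univ,
      Fintype.card_fin]
  have hκa : κ + 1 ≤ 2 ^ a := by omega
  obtain ⟨Λ, hΛ1, hΛ2, x, lab, h1, h2, h3⟩ := gap_dist (c := κ + 1) (S := 2 ^ s - 1) (J := a)
    (by omega) (by omega) (by positivity) (by omega) (by omega) (by omega) D φ hφ U hU
    (num_q ha hκa) (num_S ha hκa (by rw [← hκ]; omega))
  have hUc1 : s + g + U.card = k + g := by omega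
  have hUc2 : κ + 1 + U.card = k := by omega
  rw [hUc1] at h1
  rw [hUc2] at h2
  refine ⟨Λ, hΛ1, hΛ2, x, ?_, ?_⟩
  · intro l
    cases hl : lab l
    · exact Or.inr (h2 l hl)
    · exact Or.inl (h1 l hl)
  · intro N C out hC1 hC2
    have key := h3 N C out (by omega) (by
      rw [← hκ]
      exact hp _ (one_le_prod _) hC1)
    have hfil : (univ.filter (fun l => (out.eval (x l) (C.vals (x l)) = true ↔
        HasClique n (k + g) (x l)))) =
        univ.filter (fun l => out.eval (x l) (C.vals (x l)) = lab l) := by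
      ext l
      simp only [mem_filter, mem_univ, true_and]
      cases hl : lab l
      · have h4 : ¬ HasClique n (k + g) (x l) := fun h => h2 l hl (h.anti (Nat.le_add_right _ _))
        simp [h4]
      · simp [h1 l hl]
    rw [hfil]
    have hs0 : (0 : ℝ) < s := by exact_mod_cast (show 0 < s by omega)
    rw [← hκ] at key
    have key' : 2 * (s : ℝ) *
        ((univ.filter (fun l => out.eval (x l) (C.vals (x l)) = lab l)).card : ℝ) <
        ((s : ℝ) + 2) * Fintype.card Λ := by exact_mod_cast key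
    calc ((univ.filter (fun l => out.eval (x l) (C.vals (x l)) = lab l)).card : ℝ)
        < (((s : ℝ) + 2) * Fintype.card Λ) / (2 * s) := by
          rw [lt_div_iff₀ (by positivity), mul_comm]
          exact key'
      _ = (1 / 2 + 1 / s) * Fintype.card Λ := by field_simp

end Pool.Agent.J6H11.NegClq
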