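import Pool.Agent.J6H11.NegClq.Des
import Pool.Agent.H559R8.Main

/-!
# The union of the blocks, with further vertices that are joined to all vertices
-/

set_option autoImplicit false

namespace Pool.Agent.J6H11.NegClq

open Finset Pool.Agent.H559R4 Pool.Agent.H520R2 Pool.Agent.H520R2.NM

variable {V : Type} {k q P κ n : ℕ} (D : Des V k q P κ) (φ : V → Fin n) (U : Finset (Fin n))

/-- The union of the graphs `Y p`, without the edges inside the parts; the vertices in `U` are
joined to all vertices. -/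
def un (Y : Fin P → SimpleGraph (Fin k × Fin q)) : SimpleGraph (Fin n) where
  Adj u v := u ≠ v ∧ ((u ∈ U ∨ v ∈ U) ∨
    ∃ p a b, φ (D.pt p a) = u ∧ φ (D.pt p b) = v ∧ a.1 ≠ b.1 ∧ (Y p).Adj a b)
  symm := ⟨by
    rintro u v ⟨h0, h | ⟨p, a, b, h1, h2, h3, h4⟩⟩
    · exact ⟨h0.symm, Or.inl h.symm⟩
    · exact ⟨h0.symm, Or.inr ⟨p, b, a, h2, h1, h3.symm, h4.symm⟩⟩⟩
  loopless := ⟨fun u h => h.1 rfl⟩

theorem un_mono {Y Y' : Fin P → SimpleGraph (Fin k × Fin q)} (h : Y ≤ Y') :
    un D φ U Y ≤ un D φ U Y' := by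
  rintro u v ⟨h0, h' | ⟨p, a, b, h1, h2, h3, h4⟩⟩
  · exact ⟨h0, Or.inl h'⟩
  · exact ⟨h0, Or.inr ⟨p, a, b, h1, h2, h3, h p h4⟩⟩

variable (hφ : Function.Injective φ) (hU : ∀ v, φ v ∉ U)

include hφ hU

theorem un_pos (Y : Fin P → SimpleGraph (Fin k × Fin q)) (p : Fin P) (h : Tcl (Y p)) :
    ¬ (un D φ U Y).CliqueFree (k + U.card) := by
  classical
  obtain ⟨π, hπ⟩ := h
  unfold SimpleGraph.CliqueFree
  push Not
  have hinj : Function.Injective (fun i : Fin k => φ (D.pt p (i, π i))) := by
    intro i j h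
    exact congrArg Prod.fst (D.inj p (hφ h))
  refine ⟨univ.image (fun i => φ (D.pt p (i, π i))) ∪ U, ?_⟩
  have hdisj : Disjoint (univ.image (fun i => φ (D.pt p (i, π i)))) U := by
    rw [disjoint_left]
    intro v hv
    rw [mem_image] at hv
    obtain ⟨i, -, rfl⟩ := hv
    exact hU _
  rw [SimpleGraph.isNClique_iff]
  constructor
  · intro u hu v hv huv
    refine ⟨huv, ?_⟩
    rw [coe_union] at hu hv
    rcases hu with hu | hu
    · rcases hv with hv | hv
      · right
        simp only [coe_image, coe_univ, Set.image_univ, Set.mem_range] at hu hv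
        obtain ⟨i, rfl⟩ := hu
        obtain ⟨j, rfl⟩ := hv
        have hij : i ≠ j := fun h => huv (by rw [h])
        refine ⟨p, _, _, rfl, rfl, hij, ?_⟩
        rcases lt_or_gt_of_ne hij with h | h
        · exact hπ i j h
        · exact (hπ j i h).symm
      · exact Or.inl (Or.inr hv)
    · exact Or.inl (Or.inl hu)
  · rw [card_union_of_disjoint hdisj, card_image_of_injective _ hinj, card_univ, Fintype.card_fin]

omit hU in
theorem un_neg (hκ : 1 ≤ κ) (Y : Fin P → SimpleGraph (Fin k × Fin q))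
    (h : ∀ p, (Y p).CliqueFree (κ + 1)) : (un D φ U Y).CliqueFree (κ + 1 + U.card) := by
  classical
  intro S hS
  have hcard := hS.card_eq
  have hcl := hS.isClique
  -- the vertices outside `U`
  set S' := S \ U with hS'
  have hS'c : κ < S'.card := by
    have h0 : S.card - U.card ≤ S'.card := by
      rw [hS']
      exact le_card_sdiff U S
    omega
  have hmem : ∀ u ∈ S', u ∈ S ∧ u ∉ U := fun u hu => mem_sdiff.1 hu
  have hadj : ∀ u ∈ S', ∀ v ∈ S', u ≠ v →
      ∃ p a b, φ (D.pt p a) = u ∧ φ (D.pt p b) = v ∧ a.1 ≠ b.1 ∧ (Y p).Adj a b := by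
    intro u hu v hv huv
    rcases (hcl (hmem u hu).1 (hmem v hv).1 huv).2 with (h1 | h1) | h1
    · exact absurd h1 (hmem u hu).2
    · exact absurd h1 (hmem v hv).2
    · exact h1
  -- every vertex has an origin
  have horig : ∀ u ∈ S', ∃ v : V, φ v = u := by
    intro u hu
    obtain ⟨v, hv, hvu⟩ := exists_mem_ne (show 1 < S'.card by omega) u
    obtain ⟨p, a, b, h1, _⟩ := hadj u hu v hv hvu.symm
    exact ⟨_, h1⟩
  have : Nonempty V := by
    obtain ⟨u, hu⟩ := card_pos.1 (show 0 < S'.card by omega)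
    obtain ⟨v, _⟩ := horig u hu
    exact ⟨v⟩
  let ψ : Fin n → V := fun u => Function.invFun φ u
  have hψ : ∀ u ∈ S', φ (ψ u) = u := fun u hu => Function.invFun_eq (horig u hu)
  have hψφ : ∀ v, ψ (φ v) = v := fun v => Function.leftInverse_invFun hφ v
  set T := S'.image ψ with hT
  have hψinj : Set.InjOn ψ (S' : Set (Fin n)) := by
    intro u hu v hv huv
    rw [← hψ u hu, ← hψ v hv, huv]
  have hTc : κ < T.card := by
    rw [hT, card_image_of_injOn hψinj]
    exact hS'c
  have hTadj : ∀ u ∈ T, ∀ v ∈ T, u ≠ v →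
      ∃ p a b, D.pt p a = u ∧ D.pt p b = v ∧ a.1 ≠ b.1 ∧ (Y p).Adj a b := by
    intro u hu v hv huv
    rw [hT, mem_image] at hu hv
    obtain ⟨u', hu', rfl⟩ := hu
    obtain ⟨v', hv', rfl⟩ := hv
    obtain ⟨p, a, b, h1, h2, h3, h4⟩ := hadj u' hu' v' hv' (fun h => huv (by rw [h]))
    exact ⟨p, a, b, by rw [← h1, hψφ], by rw [← h2, hψφ], h3, h4⟩
  obtain ⟨p, hp⟩ := D.clq T hTc (by
    intro u hu v hv huv
    obtain ⟨p, a, b, h1, h2, h3, _⟩ := hTadj u hu v hv huv
    refine ⟨?_, p, a, b, h1, h2⟩
    rw [← h1, ← h2, D.hcol, D.hcol]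
    exact h3)
  have hin : ∀ u ∈ T, ∀ v ∈ T, u ≠ v → ∃ a b, D.pt p a = u ∧ D.pt p b = v ∧ (Y p).Adj a b := by
    intro u hu v hv huv
    obtain ⟨p', a, b, h1, h2, _, h4⟩ := hTadj u hu v hv huv
    have := hp u hu v hv huv p' a b h1 h2
    subst this
    exact ⟨a, b, h1, h2, h4⟩
  have hpre : ∀ u ∈ T, ∃ a, D.pt p a = u := by
    intro u hu
    obtain ⟨v, hv, hvu⟩ := exists_mem_ne (show 1 < T.card by omega) u
    obtain ⟨a, b, h1, _⟩ := hin u hu v hv hvu.symm
    exact ⟨a, h1⟩
  have : Nonempty (Fin k × Fin q) := by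
    obtain ⟨u, hu⟩ := card_pos.1 (show 0 < T.card by omega)
    obtain ⟨a, _⟩ := hpre u hu
    exact ⟨a⟩
  choose! g hg using hpre
  have hginj : Set.InjOn g (T : Set V) := by
    intro u hu v hv huv
    rw [← hg u hu, ← hg v hv, huv]
  obtain ⟨T', hT', hT'c⟩ := exists_subset_card_eq (show κ + 1 ≤ T.card by omega)
  apply h p (T'.image g)
  rw [SimpleGraph.isNClique_iff]
  constructor
  · intro x hx y hy hxy
    simp only [coe_image, Set.mem_image, mem_coe] at hx hy
    obtain ⟨u, hu, rfl⟩ := hx
    obtain ⟨v, hv, rfl⟩ := hy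
    have huv : u ≠ v := fun h => hxy (by rw [h])
    obtain ⟨a, b, h1, h2, h3⟩ := hin u (hT' hu) v (hT' hv) huv
    have ea : a = g u := D.inj p (h1.trans (hg u (hT' hu)).symm)
    have eb : b = g v := D.inj p (h2.trans (hg v (hT' hv)).symm)
    rw [← ea, ← eb]
    exact h3
  · rw [card_image_of_injOn (hginj.mono (by exact_mod_cast hT')), hT'c]

omit hφ hU

/-- The input of a circuit that encodes the graphs `Y p`. -/
noncomputable def enc (Y : Fin P → SimpleGraph (Fin k × Fin q)) : Sym2 (Fin n) → Bool := by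
  classical
  exact fun e => decide (e ∈ (un D φ U Y).edgeSet)

theorem enc_graph (Y : Fin P → SimpleGraph (Fin k × Fin q)) :
    SimpleGraph.fromEdgeSet {e | enc D φ U Y e = true} = un D φ U Y := by
  have : {e | enc D φ U Y e = true} = (un D φ U Y).edgeSet := by
    ext e
    simp [enc]
  rw [this, SimpleGraph.fromEdgeSet_edgeSet]

theorem enc_mono {Y Y' : Fin P → SimpleGraph (Fin k × Fin q)} (h : Y ≤ Y') :
    enc D φ U Y ≤ enc D φ U Y' := by
  intro e
  unfold enc
  rw [Bool.le_iff_imp]
  simp only [decide_eq_true_eq]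
  intro he
  exact SimpleGraph.edgeSet_mono (un_mono D φ U h) he

include hφ in
theorem enc_base (Y : Fin P → SimpleGraph (Fin k × Fin q))
    (J : Fin P) (f : (Sym2 (Fin n) → Bool) → Bool) (hf : f ∈ VB (Sym2 (Fin n))) :
    f ∘ (fun G => enc D φ U (Function.update Y J G)) ∈ GB (Fin k × Fin q) := by
  classical
  rcases hf with ⟨c, rfl⟩ | ⟨e, rfl⟩
  · exact Or.inl ⟨c, rfl⟩
  · induction e using Sym2.ind with
    | _ u v =>
      have key : ∀ G, enc D φ U (Function.update Y J G) s(u, v) =
          decide ((un D φ U (Function.update Y J G)).Adj u v) := by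
        intro G
        simp only [enc, SimpleGraph.mem_edgeSet]
      by_cases huv : u = v
      · left
        refine ⟨false, ?_⟩
        funext G
        simp only [Function.comp]
        rw [key, decide_eq_false_iff_not]
        intro h
        exact h.1 huv
      by_cases hUU : u ∈ U ∨ v ∈ U
      · left
        refine ⟨true, ?_⟩
        funext G
        simp only [Function.comp]
        rw [key, decide_eq_true_eq]
        exact ⟨huv, Or.inl hUU⟩
      by_cases hc : ∃ p, p ≠ J ∧ ∃ a b, φ (D.pt p a) = u ∧ φ (D.pt p b) = v ∧ a.1 ≠ b.1 ∧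
          (Y p).Adj a b
      · left
        refine ⟨true, ?_⟩
        funext G
        simp only [Function.comp]
        rw [key, decide_eq_true_eq]
        obtain ⟨p, hp, a, b, h1, h2, h3, h4⟩ := hc
        exact ⟨huv, Or.inr ⟨p, a, b, h1, h2, h3, by rw [Function.update_of_ne hp]; exact h4⟩⟩
      · by_cases hJ : ∃ a b, φ (D.pt J a) = u ∧ φ (D.pt J b) = v ∧ a.1 ≠ b.1
        · obtain ⟨a, b, ha, hb, hab⟩ := hJ
          right
          refine ⟨a, b, ?_⟩
          funext G
          simp only [Function.comp]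
          rw [key]
          unfold adjFn
          congr 1
          apply propext
          constructor
          · rintro ⟨-, h | ⟨p, a', b', h1, h2, h3, h4⟩⟩
            · exact absurd h hUU
            by_cases hp : p = J
            · subst hp
              rw [Function.update_self] at h4
              have e1 : a' = a := D.inj _ (hφ (h1.trans ha.symm))
              have e2 : b' = b := D.inj _ (hφ (h2.trans hb.symm))
              rw [e1, e2] at h4
              exact h4
            · rw [Function.update_of_ne hp] at h4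
              exact absurd ⟨p, hp, a', b', h1, h2, h3, h4⟩ hc
          · intro h
            exact ⟨huv, Or.inr ⟨J, a, b, ha, hb, hab, by rw [Function.update_self]; exact h⟩⟩
        · left
          refine ⟨false, ?_⟩
          funext G
          simp only [Function.comp]
          rw [key, decide_eq_false_iff_not]
          rintro ⟨-, h | ⟨p, a, b, h1, h2, h3, h4⟩⟩
          · exact hUU h
          by_cases hp : p = J
          · subst hp
            exact hJ ⟨a, b, h1, h2, h3⟩
          · rw [Function.update_of_ne hp] at h4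
            exact hc ⟨p, hp, a, b, h1, h2, h3, h4⟩

end Pool.Agent.J6H11.NegClq
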